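import Mathlib
import Pool.Agent.Work.MP_9cc08e_co.Main

/-!
# A counterexample for `q = 2`, `n = 25`

`W₁` is the set of `x` in the field `K` with `2 ^ 25` elements with
`x + x^(2^5) + x^(2^10) + x^(2^15) + x^(2^20) = 0`, and `W₂` is the subfield with `2 ^ 5` elements.
-/

set_option autoImplicit false

namespace Pool.Agent.Results.MP_9cc08e_co.DisproofN25

open Pool.Agent.Work.MP_9cc08e_co

/-- `W` is invariant under `σ : x ↦ x ^ q`. -/
def SigmaInvariant (q : ℕ) {F K : Type*} [Field F] [Field K] [Algebra F K]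
    (W : Submodule F K) : Prop :=
  ∀ w ∈ W, w ^ q ∈ W

/-- `U ⊆ W` is a `σ`-covering of `W`: every element of `W` belongs to `σ ^ i (U)` for some
`0 ≤ i < n`, where `σ x = x ^ q`. -/
def IsSigmaCovering (q n : ℕ) {F K : Type*} [Field F] [Field K] [Algebra F K]
    (W U : Submodule F K) : Prop :=
  U ≤ W ∧ ∀ w ∈ W, ∃ i < n, ∃ u ∈ U, w = u ^ (q ^ i)

/-- `h_σ(W)`: the maximum of `dim W - dim U` over all `σ`-coverings `U` of `W`. -/
noncomputable def hSigma (q n : ℕ) {F K : Type*} [Field F] [Field K] [Algebra F K]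
    (W : Submodule F K) : ℕ :=
  sSup {h : ℕ | ∃ U : Submodule F K, IsSigmaCovering q n W U ∧
    Module.finrank F W = Module.finrank F U + h}

section general

variable {K : Type*} [Field K] [Algebra (ZMod 2) K] [Finite K]

/-- The Frobenius as a linear map. -/
noncomputable def Fr : K →ₗ[ZMod 2] K :=
  (FiniteField.frobeniusAlgEquivOfAlgebraic (ZMod 2) K).toLinearMap

theorem Fr_apply (x : K) : Fr x = x ^ 2 := rfl

theorem Fr_pow_apply (k : ℕ) (x : K) : (Fr ^ k : K →ₗ[ZMod 2] K) x = x ^ (2 ^ k) := by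
  induction k with
  | zero => simp
  | succ k ih => rw [pow_succ', Module.End.mul_apply, ih, Fr_apply, ← pow_mul, pow_succ]

theorem Fr_pow_injective (k : ℕ) : Function.Injective (Fr ^ k : K →ₗ[ZMod 2] K) := by
  induction k with
  | zero => intro x y h; simpa using h
  | succ k ih =>
    intro x y h
    rw [pow_succ', Module.End.mul_apply, Module.End.mul_apply] at h
    exact ih ((FiniteField.frobeniusAlgEquivOfAlgebraic (ZMod 2) K).injective h)

theorem pow_card25 (hK : Module.finrank (ZMod 2) K = 25) (x : K) : x ^ (2 ^ 25) = x := by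
  have := Fintype.ofFinite K
  have h := Module.card_eq_pow_finrank (K := ZMod 2) (V := K)
  rw [hK, ZMod.card] at h
  rw [← h]
  exact FiniteField.pow_card x

/-- There is a coordinate system in which the Frobenius is the inverse of the cyclic shift. -/
theorem exists_coords (hK : Module.finrank (ZMod 2) K = 25) :
    ∃ E : V ≃ₗ[ZMod 2] K, ∀ (c : V) (k : ℕ), (E ((shift ^ k) c)) ^ (2 ^ k) = E c := by
  obtain ⟨γ, hγ⟩ := exists_linearIndependent_algEquiv_apply (ZMod 2) K
  let g : ZMod 25 → K := fun i => γ ^ (2 ^ i.val)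
  have hli : LinearIndependent (ZMod 2) g := by
    have hinj : Function.Injective (fun i : ZMod 25 =>
        (FiniteField.frobeniusAlgEquivOfAlgebraic (ZMod 2) K) ^ i.val) := by
      intro i j hij
      have hb := (FiniteField.bijective_frobeniusAlgEquivOfAlgebraic_pow (ZMod 2) K).1
      have hi : i.val < Module.finrank (ZMod 2) K := by rw [hK]; exact ZMod.val_lt i
      have hj : j.val < Module.finrank (ZMod 2) K := by rw [hK]; exact ZMod.val_lt j
      have := @hb ⟨i.val, hi⟩ ⟨j.val, hj⟩ hij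
      rw [Fin.mk.injEq] at this
      exact ZMod.val_injective 25 this
    have := hγ.comp _ hinj
    convert this using 1
    funext i
    have h1 := FiniteField.coe_frobeniusAlgEquivOfAlgebraic_iterate (ZMod 2) K i.val
    rw [ZMod.card] at h1
    simp only [Function.comp_def, AlgEquiv.coe_pow, h1]
    rfl
  let B := basisOfLinearIndependentOfCardEqFinrank hli (by rw [hK]; rfl)
  have hB : ∀ i, B i = g i := fun i => by
    simp only [B, coe_basisOfLinearIndependentOfCardEqFinrank]
  have hg : ∀ (i : ZMod 25) (k : ℕ), (g i) ^ (2 ^ k) = g (i + k) := by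
    intro i k
    simp only [g]
    rw [← pow_mul, ← pow_add]
    have key : ∀ n : ℕ, γ ^ (2 ^ n) = γ ^ (2 ^ (n % 25)) := by
      intro n
      have hq : ∀ q r : ℕ, γ ^ (2 ^ (25 * q + r)) = γ ^ (2 ^ r) := by
        intro q r
        induction q with
        | zero => simp
        | succ q ih =>
          have e : 25 * (q + 1) + r = 25 + (25 * q + r) := by ring
          rw [e, pow_add, pow_mul, pow_card25 hK, ih]
      conv_lhs => rw [← Nat.div_add_mod n 25, hq]
    rw [key (i.val + k)]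
    congr 2
    rw [ZMod.val_add, ZMod.val_natCast, Nat.add_mod, Nat.mod_eq_of_lt (ZMod.val_lt i)]
  refine ⟨B.equivFun.symm, fun c k => ?_⟩
  rw [Module.Basis.equivFun_symm_apply, Module.Basis.equivFun_symm_apply, ← Fr_pow_apply, map_sum]
  rw [← Equiv.sum_comp (Equiv.addRight (k : ZMod 25)) (fun i => c i • B i)]
  refine Finset.sum_congr rfl ?_
  intro i _
  rw [map_smul, shift_pow_apply, Fr_pow_apply, hB, hg, Equiv.coe_addRight, hB]

/-- The first summand. -/
noncomputable def W₁ : Submodule (ZMod 2) K :=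
  LinearMap.ker (1 + Fr ^ 5 + Fr ^ 10 + Fr ^ 15 + Fr ^ 20 : K →ₗ[ZMod 2] K)

/-- The second summand. -/
noncomputable def W₂ : Submodule (ZMod 2) K :=
  LinearMap.ker (Fr ^ 5 - 1 : K →ₗ[ZMod 2] K)

theorem mem_W₁ {x : K} : x ∈ (W₁ : Submodule (ZMod 2) K) ↔
    x + x ^ (2 ^ 5) + x ^ (2 ^ 10) + x ^ (2 ^ 15) + x ^ (2 ^ 20) = 0 := by
  unfold W₁
  rw [LinearMap.mem_ker]
  simp only [LinearMap.add_apply, Fr_pow_apply, Module.End.one_apply]

theorem mem_W₂ {x : K} : x ∈ (W₂ : Submodule (ZMod 2) K) ↔ x ^ (2 ^ 5) = x := by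
  unfold W₂
  rw [LinearMap.mem_ker]
  simp only [LinearMap.sub_apply, Fr_pow_apply, Module.End.one_apply]
  exact sub_eq_zero

omit [Algebra (ZMod 2) K] [Finite K] in
theorem Fr_pow_mul_apply (a b : ℕ) (x : K) : (x ^ (2 ^ a)) ^ (2 ^ b) = x ^ (2 ^ (a + b)) := by
  rw [← pow_mul, ← pow_add]

theorem isCompl (hK : Module.finrank (ZMod 2) K = 25) :
    IsCompl (W₁ : Submodule (ZMod 2) K) W₂ := by
  have two : ∀ x : K, x + x = 0 := by
    intro x
    have h : (2 : ZMod 2) • x = 0 := by
      have : (2 : ZMod 2) = 0 := by decide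
      rw [this, zero_smul]
    rwa [two_smul] at h
  constructor
  · rw [Submodule.disjoint_def]
    intro x h1 h2
    rw [mem_W₁] at h1
    rw [mem_W₂] at h2
    have h10 : x ^ (2 ^ 10) = x := by
      rw [show (10 : ℕ) = 5 + 5 from rfl, ← Fr_pow_mul_apply, h2, h2]
    have h15 : x ^ (2 ^ 15) = x := by
      rw [show (15 : ℕ) = 10 + 5 from rfl, ← Fr_pow_mul_apply, h10, h2]
    have h20 : x ^ (2 ^ 20) = x := by
      rw [show (20 : ℕ) = 15 + 5 from rfl, ← Fr_pow_mul_apply, h15, h2]
    rw [h2, h10, h15, h20] at h1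
    have := two x
    linear_combination h1 - 2 * this
  · rw [codisjoint_iff, eq_top_iff]
    intro x _
    rw [Submodule.mem_sup]
    -- the trace to the subfield
    let t := x + x ^ (2 ^ 5) + x ^ (2 ^ 10) + x ^ (2 ^ 15) + x ^ (2 ^ 20)
    have h25 : x ^ (2 ^ 25) = x := pow_card25 hK x
    have hadd : ∀ (k : ℕ) (a b : K), (a + b) ^ (2 ^ k) = a ^ (2 ^ k) + b ^ (2 ^ k) := by
      intro k a b
      rw [← Fr_pow_apply, ← Fr_pow_apply, ← Fr_pow_apply, map_add]
    have ht : t ^ (2 ^ 5) = t := by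
      simp only [t]
      rw [hadd, hadd, hadd, hadd, Fr_pow_mul_apply, Fr_pow_mul_apply, Fr_pow_mul_apply,
        Fr_pow_mul_apply]
      norm_num only
      rw [show (33554432 : ℕ) = 2 ^ 25 from by norm_num, h25]
      ring
    have htm : t ∈ (W₂ : Submodule (ZMod 2) K) := mem_W₂.2 ht
    refine ⟨x - t, ?_, t, htm, by ring⟩
    rw [mem_W₁]
    have hsub : ∀ (k : ℕ) (a b : K), (a - b) ^ (2 ^ k) = a ^ (2 ^ k) - b ^ (2 ^ k) := by
      intro k a b
      rw [← Fr_pow_apply, ← Fr_pow_apply, ← Fr_pow_apply, map_sub]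
    have h10 : t ^ (2 ^ 10) = t := by
      rw [show (10 : ℕ) = 5 + 5 from rfl, ← Fr_pow_mul_apply, ht, ht]
    have h15 : t ^ (2 ^ 15) = t := by
      rw [show (15 : ℕ) = 10 + 5 from rfl, ← Fr_pow_mul_apply, h10, ht]
    have h20 : t ^ (2 ^ 20) = t := by
      rw [show (20 : ℕ) = 15 + 5 from rfl, ← Fr_pow_mul_apply, h15, ht]
    rw [hsub, hsub, hsub, hsub, ht, h10, h15, h20]
    have e : x - t + (x ^ 2 ^ 5 - t) + (x ^ 2 ^ 10 - t) + (x ^ 2 ^ 15 - t) + (x ^ 2 ^ 20 - t) =
      t - (t + t) - (t + t) - t := by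
      simp only [t]; ring
    rw [e, two t]
    ring

theorem inv_W₁ : SigmaInvariant 2 (W₁ : Submodule (ZMod 2) K) := by
  intro w hw
  rw [mem_W₁] at hw ⊢
  have h := congrArg (fun y => Fr y) hw
  simp only [map_add, map_zero, Fr_apply] at h
  rw [← h]
  ring

theorem inv_W₂ : SigmaInvariant 2 (W₂ : Submodule (ZMod 2) K) := by
  intro w hw
  rw [mem_W₂] at hw ⊢
  rw [← pow_mul, mul_comm, pow_mul, hw]

omit [Finite K] in
/-- Upper bound for a set of codimensions. -/
theorem hSigma_le {W : Submodule (ZMod 2) K} {n m : ℕ} (hn : 0 < n)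
    (h : ∀ U : Submodule (ZMod 2) K, IsSigmaCovering 2 n W U → ∀ k,
      Module.finrank (ZMod 2) W = Module.finrank (ZMod 2) U + k → k ≤ m) :
    hSigma 2 n W ≤ m := by
  unfold hSigma
  apply csSup_le
  · refine ⟨0, W, ⟨le_rfl, fun w hw => ⟨0, hn, w, hw, ?_⟩⟩, by simp⟩
    simp
  · rintro k ⟨U, hU, hk⟩
    exact h U hU k hk

omit [Finite K] in
theorem le_hSigma {W U : Submodule (ZMod 2) K} {n k : ℕ} (hU : IsSigmaCovering 2 n W U)
    (hk : Module.finrank (ZMod 2) W = Module.finrank (ZMod 2) U + k) :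
    k ≤ hSigma 2 n W := by
  unfold hSigma
  apply le_csSup
  · refine ⟨Module.finrank (ZMod 2) W, ?_⟩
    rintro j ⟨U', _, hj⟩
    omega
  · exact ⟨U, hU, hk⟩

theorem shift_25 (c : V) : (shift ^ 25) c = c := by
  funext i
  rw [shift_pow_apply]
  have : ((25 : ℕ) : ZMod 25) = 0 := rfl
  rw [this, add_zero]

omit [Finite K] in
theorem E_pow {E : V ≃ₗ[ZMod 2] K} (hE : ∀ (c : V) (k : ℕ), (E ((shift ^ k) c)) ^ (2 ^ k) = E c)
    (c : V) (j : ℕ) (hj : j ≤ 25) : (E c) ^ (2 ^ j) = E ((shift ^ (25 - j)) c) := by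
  have h1 := hE ((shift ^ (25 - j)) c) j
  rw [← Module.End.mul_apply, ← pow_add, Nat.add_sub_cancel' hj, shift_25] at h1
  exact h1

/-- Upper bound on `W₁`. -/
theorem bound_W₁ (hK : Module.finrank (ZMod 2) K = 25) :
    hSigma 2 25 (W₁ : Submodule (ZMod 2) K) ≤ 2 := by
  apply hSigma_le (by norm_num)
  intro U hU k hk
  by_contra hk3
  obtain ⟨E, hE⟩ := exists_coords hK
  -- membership in `C`
  have hmemC : ∀ c : V, E c ∈ (W₁ : Submodule (ZMod 2) K) → c ∈ C := by
    intro c hc
    rw [mem_W₁] at hc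
    rw [E_pow hE c 5 (by norm_num), E_pow hE c 10 (by norm_num), E_pow hE c 15 (by norm_num),
      E_pow hE c 20 (by norm_num),
      ← map_add, ← map_add, ← map_add, ← map_add] at hc
    have h0 := (LinearEquiv.map_eq_zero_iff E).1 hc
    rw [mem_C]
    intro i
    have := congrFun h0 i
    simp only [Pi.add_apply, shift_pow_apply, Pi.zero_apply] at this
    norm_num at this
    linear_combination this
  -- three functionals
  let U' : Submodule (ZMod 2) (W₁ : Submodule (ZMod 2) K) := U.comap (W₁).subtype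
  have hrank : 3 ≤ Module.finrank (ZMod 2) ((W₁ : Submodule (ZMod 2) K) ⧸ U') := by
    have h1 := Submodule.finrank_quotient_add_finrank U'
    have h2 : Module.finrank (ZMod 2) U' = Module.finrank (ZMod 2) U :=
      (Submodule.comapSubtypeEquivOfLe hU.1).finrank_eq
    omega
  let bq := Module.finBasis (ZMod 2) ((W₁ : Submodule (ZMod 2) K) ⧸ U')
  let i0 : Fin (Module.finrank (ZMod 2) ((W₁ : Submodule (ZMod 2) K) ⧸ U')) := ⟨0, by omega⟩
  let i1 : Fin (Module.finrank (ZMod 2) ((W₁ : Submodule (ZMod 2) K) ⧸ U')) := ⟨1, by omega⟩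
  let i2 : Fin (Module.finrank (ZMod 2) ((W₁ : Submodule (ZMod 2) K) ⧸ U')) := ⟨2, by omega⟩
  have hex : ∀ i, ∃ ψ : K →ₗ[ZMod 2] ZMod 2, ∀ w : (W₁ : Submodule (ZMod 2) K),
      ψ w = bq.repr (U'.mkQ w) i := by
    intro i
    obtain ⟨ψ, hψ⟩ := LinearMap.exists_extend ((bq.coord i) ∘ₗ U'.mkQ)
    refine ⟨ψ, fun w => ?_⟩
    have := congrArg (fun T => T w) hψ
    simpa using this
  choose ψ hψ using hex
  have hvan : ∀ i, ∀ u ∈ U, ψ i u = 0 := by
    intro i u hu
    have h1 := hψ i ⟨u, hU.1 hu⟩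
    have h2 : U'.mkQ ⟨u, hU.1 hu⟩ = 0 := by
      rw [Submodule.mkQ_apply, Submodule.Quotient.mk_eq_zero]
      exact hu
    rw [h2, map_zero] at h1
    exact h1
  have hwit : ∀ i, ∃ c ∈ C, ∀ j, ψ j (E c) = if i = j then 1 else 0 := by
    intro i
    obtain ⟨w, hw⟩ := U'.mkQ_surjective (bq i)
    refine ⟨E.symm w, hmemC _ (by rw [E.apply_symm_apply]; exact w.2), fun j => ?_⟩
    rw [E.apply_symm_apply, hψ, hw, Module.Basis.repr_self, Finsupp.single_apply]
  have h01 : i0 ≠ i1 := by simp [i0, i1]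
  have h02 : i0 ≠ i2 := by simp [i0, i2]
  have h12 : i1 ≠ i2 := by simp [i1, i2]
  obtain ⟨c0, hc0, hv0⟩ := hwit i0
  obtain ⟨c1, hc1, hv1⟩ := hwit i1
  obtain ⟨c2, hc2, hv2⟩ := hwit i2
  obtain ⟨c, hc, hbad⟩ := key ((ψ i0) ∘ₗ E.toLinearMap) ((ψ i1) ∘ₗ E.toLinearMap)
    ((ψ i2) ∘ₗ E.toLinearMap)
    ⟨c0, hc0, by
      simp only [LinearMap.comp_apply, LinearEquiv.coe_coe]
      rw [hv0, if_pos rfl]; decide⟩
    (fun e => ⟨c1, hc1, by
      simp only [LinearMap.comp_apply, LinearEquiv.coe_coe]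
      rw [hv1, if_pos rfl, hv1, if_neg h01.symm, mul_zero]; decide⟩)
    (fun e => ⟨c2, hc2, by
      simp only [LinearMap.comp_apply, LinearEquiv.coe_coe]
      rw [hv2, if_pos rfl, hv2, if_neg h02.symm, mul_zero]; decide⟩)
    (fun e => ⟨c1, hc1, by
      simp only [LinearMap.comp_apply, LinearEquiv.coe_coe]
      rw [hv1, if_pos rfl, hv1, if_neg h12, hv1, if_neg h01.symm, mul_zero, add_zero]; decide⟩)
  -- contradiction with the covering property
  have hmemW : E c ∈ (W₁ : Submodule (ZMod 2) K) := by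
    rw [mem_W₁]
    rw [E_pow hE c 5 (by norm_num), E_pow hE c 10 (by norm_num), E_pow hE c 15 (by norm_num),
      E_pow hE c 20 (by norm_num),
      ← map_add, ← map_add, ← map_add, ← map_add]
    rw [LinearEquiv.map_eq_zero_iff]
    funext i
    have := hc i
    simp only [Pi.add_apply, shift_pow_apply, Pi.zero_apply]
    norm_num
    linear_combination this
  obtain ⟨j, _, u, hu, hju⟩ := hU.2 (E c) hmemW
  have heq : E ((shift ^ j) c) = u := by
    apply Fr_pow_injective j
    rw [Fr_pow_apply, Fr_pow_apply, hE, hju]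
  rcases hbad j with h | h | h
  · apply h
    simp only [LinearMap.comp_apply, LinearEquiv.coe_coe]
    rw [heq, hvan i0 u hu]
  · apply h
    simp only [LinearMap.comp_apply, LinearEquiv.coe_coe]
    rw [heq, hvan i1 u hu]
  · apply h
    simp only [LinearMap.comp_apply, LinearEquiv.coe_coe]
    rw [heq, hvan i2 u hu]

/-- Upper bound on `W₂`, by counting. -/
theorem bound_W₂ : hSigma 2 25 (W₂ : Submodule (ZMod 2) K) ≤ 2 := by
  classical
  apply hSigma_le (by norm_num)
  intro U hU k hk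
  have := Fintype.ofFinite K
  have hcardW := Module.card_eq_pow_finrank (K := ZMod 2) (V := (W₂ : Submodule (ZMod 2) K))
  have hcardU := Module.card_eq_pow_finrank (K := ZMod 2) (V := U)
  rw [ZMod.card] at hcardW hcardU
  -- `W₂` is the union of five images of `U`
  have hsub : ((W₂ : Submodule (ZMod 2) K) : Set K).toFinset ⊆
      (Finset.range 5).biUnion (fun i => ((U : Set K).toFinset).image (fun x => x ^ (2 ^ i))) := by
    intro w hw
    rw [Set.mem_toFinset] at hw
    obtain ⟨i, _, u, hu, rfl⟩ := hU.2 w hw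
    rw [Finset.mem_biUnion]
    refine ⟨i % 5, Finset.mem_range.2 (Nat.mod_lt _ (by norm_num)), ?_⟩
    rw [Finset.mem_image]
    refine ⟨u, Set.mem_toFinset.2 hu, ?_⟩
    have hu2 := mem_W₂.1 (hU.1 hu)
    have hq : ∀ q r : ℕ, u ^ (2 ^ (5 * q + r)) = u ^ (2 ^ r) := by
      intro q r
      induction q with
      | zero => simp
      | succ q ih =>
        have e : 5 * (q + 1) + r = 5 + (5 * q + r) := by ring
        rw [e, ← Fr_pow_mul_apply, hu2, ih]
    conv_rhs => rw [← Nat.div_add_mod i 5, hq]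
  have hle := Finset.card_le_card hsub
  have hle2 : ((Finset.range 5).biUnion
      (fun i => ((U : Set K).toFinset).image (fun x => x ^ (2 ^ i)))).card ≤
      5 * ((U : Set K).toFinset).card := by
    refine Finset.card_biUnion_le.trans ?_
    refine (Finset.sum_le_card_nsmul _ _ _ (fun i _ => Finset.card_image_le)).trans ?_
    rw [Finset.card_range, smul_eq_mul]
  rw [Set.toFinset_card] at hle
  rw [Set.toFinset_card] at hle2
  have hW : Fintype.card ((W₂ : Submodule (ZMod 2) K) : Set K) =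
      Fintype.card (W₂ : Submodule (ZMod 2) K) := Fintype.card_congr (Equiv.refl _)
  have hUc : Fintype.card (U : Set K) = Fintype.card U := Fintype.card_congr (Equiv.refl _)
  rw [hW, hcardW, hk, pow_add] at hle
  rw [hUc, hcardU] at hle2
  have h5 : 2 ^ k ≤ 5 := by
    have hpos : 0 < 2 ^ Module.finrank (ZMod 2) U := by positivity
    have := hle.trans hle2
    rw [mul_comm 5] at this
    exact Nat.le_of_mul_le_mul_left this hpos
  by_contra hk3
  have : 2 ^ 3 ≤ 2 ^ k := Nat.pow_le_pow_right (by norm_num) (by omega)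
  omega

theorem five_key : ∀ x0 x1 x2 x3 x4 : ZMod 2, x0 + x1 + x2 + x3 + x4 = 0 →
    (x0 = 0 ∧ x1 = x4 ∧ x2 = x3) ∨ (x1 = 0 ∧ x2 = x0 ∧ x3 = x4) ∨ (x2 = 0 ∧ x3 = x1 ∧ x4 = x0) ∨
    (x3 = 0 ∧ x4 = x2 ∧ x0 = x1) ∨ (x4 = 0 ∧ x0 = x3 ∧ x1 = x2) := by
  decide

/-- The covering property behind `h_2(25) ≥ 3`. -/
theorem exists_good (c : V) : ∃ j : ZMod 25, c j = ∑ i, c i ∧ c (j + 5) = c (j + 20) ∧
    c (j + 10) = c (j + 15) := by
  obtain ⟨s, hs⟩ : ∃ s, s = ∑ i, c i := ⟨_, rfl⟩
  rw [← hs]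
  have hsum : s = (c 0 + c 5 + c 10 + c 15 + c 20) + (c 1 + c 6 + c 11 + c 16 + c 21) +
      (c 2 + c 7 + c 12 + c 17 + c 22) + (c 3 + c 8 + c 13 + c 18 + c 23) +
      (c 4 + c 9 + c 14 + c 19 + c 24) := by
    have h := sum_zmod (fun n => c (n : ZMod 25))
    simp only [ZMod.natCast_zmod_val] at h
    rw [hs, ← h]
    simp only [List.map_cons, List.map_nil, List.sum_cons, List.sum_nil]
    norm_num only [Nat.cast_ofNat, Nat.cast_zero, Nat.cast_one]
    ring
  -- some row has sum `s`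
  have hrow : ∃ r : ZMod 25, (c r + s) + (c (r + 5) + s) + (c (r + 10) + s) + (c (r + 15) + s) +
      (c (r + 20) + s) = 0 := by
    by_contra hcon
    push Not at hcon
    have one : ∀ x : ZMod 2, x ≠ 0 → x = 1 := by decide
    have h0 := one _ (hcon 0)
    have h1 := one _ (hcon 1)
    have h2 := one _ (hcon 2)
    have h3 := one _ (hcon 3)
    have h4 := one _ (hcon 4)
    norm_num at h0 h1 h2 h3 h4
    have e : ∀ x : ZMod 2, 26 * x = 5 → False := by decide
    apply e s
    linear_combination h0 + h1 + h2 + h3 + h4 + hsum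
  obtain ⟨r, hr⟩ := hrow
  have cancel : ∀ x y z : ZMod 2, x + z = y + z → x = y := by
    intro x y z h
    exact add_right_cancel h
  have zero : ∀ x z : ZMod 2, x + z = 0 → x = z := by decide
  rcases five_key _ _ _ _ _ hr with ⟨h1, h2, h3⟩ | ⟨h1, h2, h3⟩ | ⟨h1, h2, h3⟩ | ⟨h1, h2, h3⟩ |
    ⟨h1, h2, h3⟩
  · exact ⟨r, zero _ _ h1, cancel _ _ _ h2, cancel _ _ _ h3⟩
  · refine ⟨r + 5, zero _ _ h1, ?_, ?_⟩
    · have e1 : r + 5 + 5 = r + 10 := by ring
      have e2 : r + 5 + 20 = r := by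
        have : (25 : ZMod 25) = 0 := rfl
        linear_combination this
      rw [e1, e2]; exact cancel _ _ _ h2
    · have e1 : r + 5 + 10 = r + 15 := by ring
      have e2 : r + 5 + 15 = r + 20 := by ring
      rw [e1, e2]; exact cancel _ _ _ h3
  · refine ⟨r + 10, zero _ _ h1, ?_, ?_⟩
    · have e1 : r + 10 + 5 = r + 15 := by ring
      have e2 : r + 10 + 20 = r + 5 := by
        have : (25 : ZMod 25) = 0 := rfl
        linear_combination this
      rw [e1, e2]; exact cancel _ _ _ h2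
    · have e1 : r + 10 + 10 = r + 20 := by ring
      have e2 : r + 10 + 15 = r := by
        have : (25 : ZMod 25) = 0 := rfl
        linear_combination this
      rw [e1, e2]; exact cancel _ _ _ h3
  · refine ⟨r + 15, zero _ _ h1, ?_, ?_⟩
    · have e1 : r + 15 + 5 = r + 20 := by ring
      have e2 : r + 15 + 20 = r + 10 := by
        have : (25 : ZMod 25) = 0 := rfl
        linear_combination this
      rw [e1, e2]; exact cancel _ _ _ h2
    · have e1 : r + 15 + 10 = r := by
        have : (25 : ZMod 25) = 0 := rfl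
        linear_combination this
      have e2 : r + 15 + 15 = r + 5 := by
        have : (25 : ZMod 25) = 0 := rfl
        linear_combination this
      rw [e1, e2]; exact cancel _ _ _ h3
  · refine ⟨r + 20, zero _ _ h1, ?_, ?_⟩
    · have e1 : r + 20 + 5 = r := by
        have : (25 : ZMod 25) = 0 := rfl
        linear_combination this
      have e2 : r + 20 + 20 = r + 15 := by
        have : (25 : ZMod 25) = 0 := rfl
        linear_combination this
      rw [e1, e2]; exact cancel _ _ _ h2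
    · have e1 : r + 20 + 10 = r + 5 := by
        have : (25 : ZMod 25) = 0 := rfl
        linear_combination this
      have e2 : r + 20 + 15 = r + 10 := by
        have : (25 : ZMod 25) = 0 := rfl
        linear_combination this
      rw [e1, e2]; exact cancel _ _ _ h3

/-- The map whose kernel is the covering subspace of codimension `3`. -/
def Psi : V →ₗ[ZMod 2] (Fin 3 → ZMod 2) where
  toFun c := ![c 0 + ∑ i, c i, c 5 + c 20, c 10 + c 15]
  map_add' c d := by
    funext k
    fin_cases k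
    · simp only [Pi.add_apply, Finset.sum_add_distrib, Fin.zero_eta, Matrix.cons_val_zero]
      ring
    · simp only [Pi.add_apply, Fin.mk_one, Matrix.cons_val_one]
      simp
      ring
    · simp
      ring
  map_smul' a c := by
    funext k
    fin_cases k
    · simp [Finset.mul_sum, mul_add]
    · simp [mul_add]
    · simp [mul_add]

theorem Psi_surjective : Function.Surjective Psi := by
  intro y
  refine ⟨(y 0 + y 1 + y 2) • Pi.single 1 1 + y 1 • Pi.single 5 1 + y 2 • Pi.single 10 1, ?_⟩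
  have hs : ∀ k : ZMod 25, Psi (Pi.single k 1) =
      ![(Pi.single k 1 : V) 0 + 1, (Pi.single k 1 : V) 5 + (Pi.single k 1 : V) 20,
        (Pi.single k 1 : V) 10 + (Pi.single k 1 : V) 15] := by
    intro k
    have : ∑ i, (Pi.single k 1 : V) i = 1 := by
      rw [Finset.sum_pi_single']
      simp
    change ![_, _, _] = _
    rw [this]
  have h1 : Psi (Pi.single 1 1) = ![1, 0, 0] := by
    rw [hs]; decide
  have h5 : Psi (Pi.single 5 1) = ![1, 1, 0] := by
    rw [hs]; decide
  have h10 : Psi (Pi.single 10 1) = ![1, 0, 1] := by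
    rw [hs]; decide
  rw [map_add, map_add, map_smul, map_smul, map_smul, h1, h5, h10]
  have two : ∀ x : ZMod 2, x + x = 0 := by decide
  funext k
  fin_cases k
  · simp
    linear_combination two (y 1) + two (y 2)
  · simp
  · simp

/-- `h_σ(K) ≥ 3`. -/
theorem three_le_hSigma_top (hK : Module.finrank (ZMod 2) K = 25) :
    3 ≤ hSigma 2 25 (⊤ : Submodule (ZMod 2) K) := by
  obtain ⟨E, hE⟩ := exists_coords hK
  let Ψ : K →ₗ[ZMod 2] (Fin 3 → ZMod 2) := Psi ∘ₗ E.symm.toLinearMap
  have hsurj : Function.Surjective Ψ := by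
    intro y
    obtain ⟨c, hc⟩ := Psi_surjective y
    exact ⟨E c, by simp only [Ψ, LinearMap.comp_apply, LinearEquiv.coe_coe,
      LinearEquiv.symm_apply_apply, hc]⟩
  apply le_hSigma (U := LinearMap.ker Ψ)
  · refine ⟨le_top, fun w _ => ?_⟩
    obtain ⟨j, h1, h2, h3⟩ := exists_good (E.symm w)
    refine ⟨j.val, ZMod.val_lt j, E ((shift ^ j.val) (E.symm w)), ?_, ?_⟩
    · rw [LinearMap.mem_ker]
      simp only [Ψ, LinearMap.comp_apply, LinearEquiv.coe_coe, LinearEquiv.symm_apply_apply]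
      change ![_, _, _] = _
      have hsum : ∑ i, ((shift ^ j.val) (E.symm w)) i = ∑ i, (E.symm w) i := by
        rw [← Equiv.sum_comp (Equiv.addRight j) (fun i => (E.symm w) i)]
        refine Finset.sum_congr rfl ?_
        intro i _
        rw [shift_pow_apply, ZMod.natCast_zmod_val, Equiv.coe_addRight]
      rw [hsum]
      simp only [shift_pow_apply, ZMod.natCast_zmod_val, zero_add]
      rw [add_comm 5 j, add_comm 20 j, add_comm 10 j, add_comm 15 j, h1, h2, h3]
      have two : ∀ x : ZMod 2, x + x = 0 := by decide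
      rw [two, two, two]
      funext k
      fin_cases k <;> rfl
    · rw [hE, E.apply_symm_apply]
  · have h := LinearMap.finrank_range_add_finrank_ker Ψ
    rw [LinearMap.range_eq_top.2 hsurj, finrank_top, Module.finrank_fin_fun] at h
    rw [finrank_top]
    omega

end general

/-- **Disproof of Q1.** For `q = 2`, `n = 25` there are `σ`-invariant subspaces `W₁`, `W₂` of the
field with `2 ^ 25` elements, with direct sum the whole field, such that both `h_σ(W₁)` and
`h_σ(W₂)` are strictly smaller than `h_σ` of the whole field. -/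
theorem result : ∃ W₁ W₂ : Submodule (ZMod 2) (GaloisField 2 25),
    SigmaInvariant 2 W₁ ∧ SigmaInvariant 2 W₂ ∧ IsCompl W₁ W₂ ∧
    hSigma 2 25 W₁ < hSigma 2 25 (⊤ : Submodule (ZMod 2) (GaloisField 2 25)) ∧
    hSigma 2 25 W₂ < hSigma 2 25 (⊤ : Submodule (ZMod 2) (GaloisField 2 25)) := by
  have hK : Module.finrank (ZMod 2) (GaloisField 2 25) = 25 := GaloisField.finrank 2 (by norm_num)
  exact ⟨W₁, W₂, inv_W₁, inv_W₂, isCompl hK,
    lt_of_le_of_lt (bound_W₁ hK) (lt_of_lt_of_le (by norm_num) (three_le_hSigma_top hK)),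
    lt_of_le_of_lt bound_W₂ (lt_of_lt_of_le (by norm_num) (three_le_hSigma_top hK))⟩

end Pool.Agent.Results.MP_9cc08e_co.DisproofN25
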